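import Mathlib

/-!
# Categorical local Langlands for quasi-split groups: data and known facts
-/

namespace Pool.Agent.N522.LC

/-- Quasi-split connected reductive groups over non-archimedean local fields. -/
structure Theory where
  /-- non-archimedean local fields -/
  Fld : Type
  /-- `Ext F E`: `E/F` is a finite separable extension -/
  Ext : Fld → Fld → Prop
  /-- quasi-split groups over `F` -/
  Grp : Fld → Type
  /-- Q1 for `G` (for all its standard Levi subgroups) -/
  Holds : ∀ {F : Fld}, Grp F → Prop
  /-- products -/
  prod : ∀ {F : Fld}, Grp F → Grp F → Grp F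
  /-- `Res G H`: `G` over `F` is the restriction of scalars of `H` over `E` -/
  Res : ∀ {F E : Fld}, Grp F → Grp E → Prop
  /-- tori -/
  Torus : ∀ {F : Fld}, Grp F → Prop
  /-- `G` has a weak generic supercuspidal correspondence, and all supercuspidal representations of
  its standard Levi subgroups are generic -/
  Generic : ∀ {F : Fld}, Grp F → Prop
  /-- `GL_n` and `PGL_n` -/
  Lin : ∀ {F : Fld}, Grp F → Prop

variable {T : Theory}

/-- The groups obtained from tori and the groups with property `P` by products and restriction of
scalars. -/
inductive Gen (P : ∀ F : T.Fld, T.Grp F → Prop) : ∀ {F : T.Fld}, T.Grp F → Prop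
  | base {F : T.Fld} (G : T.Grp F) : P F G → Gen P G
  | torus {F : T.Fld} (G : T.Grp F) : T.Torus G → Gen P G
  | prod {F : T.Fld} (G H : T.Grp F) : Gen P G → Gen P H → Gen P (T.prod G H)
  | res {F E : T.Fld} (G : T.Grp F) (H : T.Grp E) : T.Ext F E → T.Res G H → Gen P H → Gen P G

/-- Known facts. -/
structure Facts (T : Theory) : Prop where
  /-- Künneth formulas: `Rep(M₁ × M₂)` and `IndCoh(X₁ × X₂)` are tensor products of categories, the
  tensor product of fully faithful functors is fully faithful, Whittaker spaces, induction and
  spectral induction are compatible with products, and the standard parabolic subgroups of a product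
  are products -/
  prod : ∀ (F : T.Fld) (G H : T.Grp F), T.Holds G → T.Holds H → T.Holds (T.prod G H)
  /-- the points and the stacks of parameters of `Res_{E/F} H` over `F` are those of `H` over `E`
  (Shapiro's lemma) -/
  res : ∀ (F E : T.Fld) (G : T.Grp F) (H : T.Grp E), T.Ext F E → T.Res G H → T.Holds H → T.Holds G
  /-- local class field theory -/
  torus : ∀ (F : T.Fld) (G : T.Grp F), T.Torus G → T.Holds G
  /-- the known theorem on generic blocks, which are all blocks here -/
  generic : ∀ (F : T.Fld) (G : T.Grp F), T.Generic G → T.Holds G
  /-- all supercuspidal representations of `GL_n` and `PGL_n` and their Levi subgroups are generic, and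
  the correspondence is known (Harris-Taylor, Henniart, Laumon-Rapoport-Stuhler) -/
  lin : ∀ (F : T.Fld) (G : T.Grp F), T.Lin G → T.Generic G

theorem holds_of_gen (F : Facts T) (P : ∀ F : T.Fld, T.Grp F → Prop)
    (h : ∀ (F : T.Fld) (G : T.Grp F), P F G → T.Holds G) {K : T.Fld} (G : T.Grp K)
    (hG : Gen P G) : T.Holds G := by
  induction hG with
  | base G h1 => exact h _ G h1
  | torus G h1 => exact F.torus _ G h1
  | prod G H _ _ h1 h2 => exact F.prod _ G H h1 h2
  | res G H h0 h1 _ h2 => exact F.res _ _ G H h0 h1 h2

theorem holds_of_lin (F : Facts T) {K : T.Fld} (G : T.Grp K)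
    (hG : Gen (fun _ H => T.Lin H) G) : T.Holds G :=
  holds_of_gen F _ (fun K H h => F.generic K H (F.lin K H h)) G hG

end Pool.Agent.N522.LC
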